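import Pool.Agent.MCD.Hlp
import Pool.Agent.MCA.CSQ
import Pool.Agent.MCD.A2.R
import Pool.Agent.MCD.A2.B00
import Pool.Agent.MCD.A2.B01
import Pool.Agent.MCD.A2.B02
import Pool.Agent.MCD.A2.B03
import Pool.Agent.MCD.A2.B04
import Pool.Agent.MCD.A2.B05
import Pool.Agent.MCD.A2.B06
import Pool.Agent.MCD.A2.B07
import Pool.Agent.MCD.A2.B08
import Pool.Agent.MCD.A2.B09
import Pool.Agent.MCD.A2.B10
import Pool.Agent.MCD.A2.B11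
import Pool.Agent.MCD.A2.B12
import Pool.Agent.MCD.A2.B13
import Pool.Agent.MCD.A2.B14
import Pool.Agent.MCD.A2.B15
import Pool.Agent.MCD.A2.B16
import Pool.Agent.MCD.A2.B17
import Pool.Agent.MCD.A2.B18
import Pool.Agent.MCD.A2.B19
import Pool.Agent.MCD.A2.B20
/-!
Cell A2. The certificate of the square.
-/
set_option autoImplicit false

namespace Pool.Agent.MCD.A2
open Pool.Agent.MSQ Pool.Agent.MTR Pool.Agent.PKD Pool.Agent.MCA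

def LC0 : List (List Bw) := [[kC0_0, kC0_1, kC0_2, kC0_3, kC0_4],
  [kC0_5, kC0_6, kC0_7, kC0_8, kC0_9],
  [kC0_10, kC0_11, kC0_12, kC0_13, kC0_14],
  [kC0_15, kC0_16, kC0_17, kC0_18, kC0_19],
  [kC0_20, kC0_21, kC0_22, kC0_23, kC0_24],
  [kC0_25, kC0_26, kC0_27, kC0_28, kC0_29],
  [kC0_30, kC0_31, kC0_32, kC0_33, kC0_34],
  [kC0_35, kC0_36, kC0_37, kC0_38, kC0_39],
  [kC0_40, kC0_41, kC0_42, kC0_43, kC0_44, kC0_45],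
  [kC0_46, kC0_47, kC0_48, kC0_49, kC0_50, kC0_51]]

theorem cC0_0 : ∀ b ∈ ([kC0_0, kC0_1, kC0_2, kC0_3, kC0_4] : List Bw), BoxOK rC0 (MCA.rA (81 * 177147) 4782969 gC0 lC0) (itB b) :=
  (al_cons (bok _ dC0_0 _ _ dC0_0_ok RC0_ok _ kC0_0_ok) (al_cons (bok _ dC0_0 _ _ dC0_0_ok RC0_ok _ kC0_1_ok) (al_cons (bok _ dC0_0 _ _ dC0_0_ok RC0_ok _ kC0_2_ok) (al_cons (bok _ dC0_0 _ _ dC0_0_ok RC0_ok _ kC0_3_ok) (al_cons (bok _ dC0_0 _ _ dC0_0_ok RC0_ok _ kC0_4_ok) al_nil)))))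

theorem cC0_1 : ∀ b ∈ ([kC0_5, kC0_6, kC0_7, kC0_8, kC0_9] : List Bw), BoxOK rC0 (MCA.rA (81 * 177147) 4782969 gC0 lC0) (itB b) :=
  (al_cons (bok _ dC0_0 _ _ dC0_0_ok RC0_ok _ kC0_5_ok) (al_cons (bok _ dC0_0 _ _ dC0_0_ok RC0_ok _ kC0_6_ok) (al_cons (bok _ dC0_0 _ _ dC0_0_ok RC0_ok _ kC0_7_ok) (al_cons (bok _ dC0_0 _ _ dC0_0_ok RC0_ok _ kC0_8_ok) (al_cons (bok _ dC0_0 _ _ dC0_0_ok RC0_ok _ kC0_9_ok) al_nil)))))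

theorem cC0_2 : ∀ b ∈ ([kC0_10, kC0_11, kC0_12, kC0_13, kC0_14] : List Bw), BoxOK rC0 (MCA.rA (81 * 177147) 4782969 gC0 lC0) (itB b) :=
  (al_cons (bok _ dC0_0 _ _ dC0_0_ok RC0_ok _ kC0_10_ok) (al_cons (bok _ dC0_0 _ _ dC0_0_ok RC0_ok _ kC0_11_ok) (al_cons (bok _ dC0_0 _ _ dC0_0_ok RC0_ok _ kC0_12_ok) (al_cons (bok _ dC0_0 _ _ dC0_0_ok RC0_ok _ kC0_13_ok) (al_cons (bok _ dC0_0 _ _ dC0_0_ok RC0_ok _ kC0_14_ok) al_nil)))))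

theorem cC0_3 : ∀ b ∈ ([kC0_15, kC0_16, kC0_17, kC0_18, kC0_19] : List Bw), BoxOK rC0 (MCA.rA (81 * 177147) 4782969 gC0 lC0) (itB b) :=
  (al_cons (bok _ dC0_0 _ _ dC0_0_ok RC0_ok _ kC0_15_ok) (al_cons (bok _ dC0_0 _ _ dC0_0_ok RC0_ok _ kC0_16_ok) (al_cons (bok _ dC0_0 _ _ dC0_0_ok RC0_ok _ kC0_17_ok) (al_cons (bok _ dC0_0 _ _ dC0_0_ok RC0_ok _ kC0_18_ok) (al_cons (bok _ dC0_0 _ _ dC0_0_ok RC0_ok _ kC0_19_ok) al_nil)))))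

theorem cC0_4 : ∀ b ∈ ([kC0_20, kC0_21, kC0_22, kC0_23, kC0_24] : List Bw), BoxOK rC0 (MCA.rA (81 * 177147) 4782969 gC0 lC0) (itB b) :=
  (al_cons (bok _ dC0_0 _ _ dC0_0_ok RC0_ok _ kC0_20_ok) (al_cons (bok _ dC0_0 _ _ dC0_0_ok RC0_ok _ kC0_21_ok) (al_cons (bok _ dC0_0 _ _ dC0_0_ok RC0_ok _ kC0_22_ok) (al_cons (bok _ dC0_0 _ _ dC0_0_ok RC0_ok _ kC0_23_ok) (al_cons (bok _ dC0_0 _ _ dC0_0_ok RC0_ok _ kC0_24_ok) al_nil)))))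

theorem cC0_5 : ∀ b ∈ ([kC0_25, kC0_26, kC0_27, kC0_28, kC0_29] : List Bw), BoxOK rC0 (MCA.rA (81 * 177147) 4782969 gC0 lC0) (itB b) :=
  (al_cons (bok _ dC0_2 _ _ dC0_2_ok RC0_ok _ kC0_25_ok) (al_cons (bok _ dC0_2 _ _ dC0_2_ok RC0_ok _ kC0_26_ok) (al_cons (bok _ dC0_0 _ _ dC0_0_ok RC0_ok _ kC0_27_ok) (al_cons (bok _ dC0_0 _ _ dC0_0_ok RC0_ok _ kC0_28_ok) (al_cons (bok _ dC0_0 _ _ dC0_0_ok RC0_ok _ kC0_29_ok) al_nil)))))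

theorem cC0_6 : ∀ b ∈ ([kC0_30, kC0_31, kC0_32, kC0_33, kC0_34] : List Bw), BoxOK rC0 (MCA.rA (81 * 177147) 4782969 gC0 lC0) (itB b) :=
  (al_cons (bok _ dC0_2 _ _ dC0_2_ok RC0_ok _ kC0_30_ok) (al_cons (bok _ dC0_2 _ _ dC0_2_ok RC0_ok _ kC0_31_ok) (al_cons (bok _ dC0_2 _ _ dC0_2_ok RC0_ok _ kC0_32_ok) (al_cons (bok _ dC0_2 _ _ dC0_2_ok RC0_ok _ kC0_33_ok) (al_cons (bok _ dC0_2 _ _ dC0_2_ok RC0_ok _ kC0_34_ok) al_nil)))))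

theorem cC0_7 : ∀ b ∈ ([kC0_35, kC0_36, kC0_37, kC0_38, kC0_39] : List Bw), BoxOK rC0 (MCA.rA (81 * 177147) 4782969 gC0 lC0) (itB b) :=
  (al_cons (bok _ dC0_2 _ _ dC0_2_ok RC0_ok _ kC0_35_ok) (al_cons (bok _ dC0_2 _ _ dC0_2_ok RC0_ok _ kC0_36_ok) (al_cons (bok _ dC0_2 _ _ dC0_2_ok RC0_ok _ kC0_37_ok) (al_cons (bok _ dC0_2 _ _ dC0_2_ok RC0_ok _ kC0_38_ok) (al_cons (bok _ dC0_2 _ _ dC0_2_ok RC0_ok _ kC0_39_ok) al_nil)))))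

theorem cC0_8 : ∀ b ∈ ([kC0_40, kC0_41, kC0_42, kC0_43, kC0_44, kC0_45] : List Bw), BoxOK rC0 (MCA.rA (81 * 177147) 4782969 gC0 lC0) (itB b) :=
  (al_cons (bok _ dC0_1 _ _ dC0_1_ok RC0_ok _ kC0_40_ok) (al_cons (bok _ dC0_1 _ _ dC0_1_ok RC0_ok _ kC0_41_ok) (al_cons (bok _ dC0_1 _ _ dC0_1_ok RC0_ok _ kC0_42_ok) (al_cons (bok _ dC0_1 _ _ dC0_1_ok RC0_ok _ kC0_43_ok) (al_cons (bok _ dC0_1 _ _ dC0_1_ok RC0_ok _ kC0_44_ok) (al_cons (bok _ dC0_1 _ _ dC0_1_ok RC0_ok _ kC0_45_ok) al_nil))))))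

theorem cC0_9 : ∀ b ∈ ([kC0_46, kC0_47, kC0_48, kC0_49, kC0_50, kC0_51] : List Bw), BoxOK rC0 (MCA.rA (81 * 177147) 4782969 gC0 lC0) (itB b) :=
  (al_cons (bok _ dC0_1 _ _ dC0_1_ok RC0_ok _ kC0_46_ok) (al_cons (bok _ dC0_1 _ _ dC0_1_ok RC0_ok _ kC0_47_ok) (al_cons (bok _ dC0_1 _ _ dC0_1_ok RC0_ok _ kC0_48_ok) (al_cons (bok _ dC0_1 _ _ dC0_1_ok RC0_ok _ kC0_49_ok) (al_cons (bok _ dC0_1 _ _ dC0_1_ok RC0_ok _ kC0_50_ok) (al_cons (bok _ dC0_1 _ _ dC0_1_ok RC0_ok _ kC0_51_ok) al_nil))))))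

theorem covC0 : Cov (covR 0 1 0 1) rC0 (MCA.rA (81 * 177147) 4782969 gC0 lC0) :=
  cov_of LC0 (by decide +kernel) (al_cons cC0_0 (al_cons cC0_1 (al_cons cC0_2 (al_cons cC0_3 (al_cons cC0_4 (al_cons cC0_5 (al_cons cC0_6 (al_cons cC0_7 (al_cons cC0_8 (al_cons cC0_9 al_nil))))))))))

def LS0 : List (List Bw) := [[kS0_0, kS0_1, kS0_2],
  [kS0_3, kS0_4, kS0_5],
  [kS0_6, kS0_7, kS0_8],
  [kS0_9, kS0_10, kS0_11],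
  [kS0_12, kS0_13, kS0_14, kS0_15],
  [kS0_16, kS0_17, kS0_18, kS0_19],
  [kS0_20, kS0_21, kS0_22, kS0_23],
  [kS0_24, kS0_25, kS0_26],
  [kS0_27, kS0_28, kS0_29],
  [kS0_30, kS0_31, kS0_32],
  [kS0_33, kS0_34, kS0_35],
  [kS0_36, kS0_37],
  [kS0_38, kS0_39],
  [kS0_40],
  [kS0_41]]

theorem cS0_0 : ∀ b ∈ ([kS0_0, kS0_1, kS0_2] : List Bw), BoxOK rS0 (MCA.rA (81 * 177147) 4782969 gS0 lS0) (itB b) :=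
  (al_cons (bok _ dS0_1 _ _ dS0_1_ok RS0_ok _ kS0_0_ok) (al_cons (bok _ dS0_1 _ _ dS0_1_ok RS0_ok _ kS0_1_ok) (al_cons (bok _ dS0_0 _ _ dS0_0_ok RS0_ok _ kS0_2_ok) al_nil)))

theorem cS0_1 : ∀ b ∈ ([kS0_3, kS0_4, kS0_5] : List Bw), BoxOK rS0 (MCA.rA (81 * 177147) 4782969 gS0 lS0) (itB b) :=
  (al_cons (bok _ dS0_1 _ _ dS0_1_ok RS0_ok _ kS0_3_ok) (al_cons (bok _ dS0_1 _ _ dS0_1_ok RS0_ok _ kS0_4_ok) (al_cons (bok _ dS0_0 _ _ dS0_0_ok RS0_ok _ kS0_5_ok) al_nil)))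

theorem cS0_2 : ∀ b ∈ ([kS0_6, kS0_7, kS0_8] : List Bw), BoxOK rS0 (MCA.rA (81 * 177147) 4782969 gS0 lS0) (itB b) :=
  (al_cons (bok _ dS0_1 _ _ dS0_1_ok RS0_ok _ kS0_6_ok) (al_cons (bok _ dS0_1 _ _ dS0_1_ok RS0_ok _ kS0_7_ok) (al_cons (bok _ dS0_0 _ _ dS0_0_ok RS0_ok _ kS0_8_ok) al_nil)))

theorem cS0_3 : ∀ b ∈ ([kS0_9, kS0_10, kS0_11] : List Bw), BoxOK rS0 (MCA.rA (81 * 177147) 4782969 gS0 lS0) (itB b) :=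
  (al_cons (bok _ dS0_1 _ _ dS0_1_ok RS0_ok _ kS0_9_ok) (al_cons (bok _ dS0_1 _ _ dS0_1_ok RS0_ok _ kS0_10_ok) (al_cons (bok _ dS0_0 _ _ dS0_0_ok RS0_ok _ kS0_11_ok) al_nil)))

theorem cS0_4 : ∀ b ∈ ([kS0_12, kS0_13, kS0_14, kS0_15] : List Bw), BoxOK rS0 (MCA.rA (81 * 177147) 4782969 gS0 lS0) (itB b) :=
  (al_cons (bok _ dS0_1 _ _ dS0_1_ok RS0_ok _ kS0_12_ok) (al_cons (bok _ dS0_0 _ _ dS0_0_ok RS0_ok _ kS0_13_ok) (al_cons (bok _ dS0_0 _ _ dS0_0_ok RS0_ok _ kS0_14_ok) (al_cons (bok _ dS0_0 _ _ dS0_0_ok RS0_ok _ kS0_15_ok) al_nil))))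

theorem cS0_5 : ∀ b ∈ ([kS0_16, kS0_17, kS0_18, kS0_19] : List Bw), BoxOK rS0 (MCA.rA (81 * 177147) 4782969 gS0 lS0) (itB b) :=
  (al_cons (bok _ dS0_1 _ _ dS0_1_ok RS0_ok _ kS0_16_ok) (al_cons (bok _ dS0_0 _ _ dS0_0_ok RS0_ok _ kS0_17_ok) (al_cons (bok _ dS0_0 _ _ dS0_0_ok RS0_ok _ kS0_18_ok) (al_cons (bok _ dS0_0 _ _ dS0_0_ok RS0_ok _ kS0_19_ok) al_nil))))

theorem cS0_6 : ∀ b ∈ ([kS0_20, kS0_21, kS0_22, kS0_23] : List Bw), BoxOK rS0 (MCA.rA (81 * 177147) 4782969 gS0 lS0) (itB b) :=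
  (al_cons (bok _ dS0_1 _ _ dS0_1_ok RS0_ok _ kS0_20_ok) (al_cons (bok _ dS0_0 _ _ dS0_0_ok RS0_ok _ kS0_21_ok) (al_cons (bok _ dS0_0 _ _ dS0_0_ok RS0_ok _ kS0_22_ok) (al_cons (bok _ dS0_0 _ _ dS0_0_ok RS0_ok _ kS0_23_ok) al_nil))))

theorem cS0_7 : ∀ b ∈ ([kS0_24, kS0_25, kS0_26] : List Bw), BoxOK rS0 (MCA.rA (81 * 177147) 4782969 gS0 lS0) (itB b) :=
  (al_cons (bok _ dS0_1 _ _ dS0_1_ok RS0_ok _ kS0_24_ok) (al_cons (bok _ dS0_0 _ _ dS0_0_ok RS0_ok _ kS0_25_ok) (al_cons (bok _ dS0_0 _ _ dS0_0_ok RS0_ok _ kS0_26_ok) al_nil)))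

theorem cS0_8 : ∀ b ∈ ([kS0_27, kS0_28, kS0_29] : List Bw), BoxOK rS0 (MCA.rA (81 * 177147) 4782969 gS0 lS0) (itB b) :=
  (al_cons (bok _ dS0_1 _ _ dS0_1_ok RS0_ok _ kS0_27_ok) (al_cons (bok _ dS0_0 _ _ dS0_0_ok RS0_ok _ kS0_28_ok) (al_cons (bok _ dS0_0 _ _ dS0_0_ok RS0_ok _ kS0_29_ok) al_nil)))

theorem cS0_9 : ∀ b ∈ ([kS0_30, kS0_31, kS0_32] : List Bw), BoxOK rS0 (MCA.rA (81 * 177147) 4782969 gS0 lS0) (itB b) :=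
  (al_cons (bok _ dS0_1 _ _ dS0_1_ok RS0_ok _ kS0_30_ok) (al_cons (bok _ dS0_0 _ _ dS0_0_ok RS0_ok _ kS0_31_ok) (al_cons (bok _ dS0_0 _ _ dS0_0_ok RS0_ok _ kS0_32_ok) al_nil)))

theorem cS0_10 : ∀ b ∈ ([kS0_33, kS0_34, kS0_35] : List Bw), BoxOK rS0 (MCA.rA (81 * 177147) 4782969 gS0 lS0) (itB b) :=
  (al_cons (bok _ dS0_0 _ _ dS0_0_ok RS0_ok _ kS0_33_ok) (al_cons (bok _ dS0_0 _ _ dS0_0_ok RS0_ok _ kS0_34_ok) (al_cons (bok _ dS0_0 _ _ dS0_0_ok RS0_ok _ kS0_35_ok) al_nil)))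

theorem cS0_11 : ∀ b ∈ ([kS0_36, kS0_37] : List Bw), BoxOK rS0 (MCA.rA (81 * 177147) 4782969 gS0 lS0) (itB b) :=
  (al_cons (bok _ dS0_2 _ _ dS0_2_ok RS0_ok _ kS0_36_ok) (al_cons (bok _ dS0_0 _ _ dS0_0_ok RS0_ok _ kS0_37_ok) al_nil))

theorem cS0_12 : ∀ b ∈ ([kS0_38, kS0_39] : List Bw), BoxOK rS0 (MCA.rA (81 * 177147) 4782969 gS0 lS0) (itB b) :=
  (al_cons (bok _ dS0_2 _ _ dS0_2_ok RS0_ok _ kS0_38_ok) (al_cons (bok _ dS0_2 _ _ dS0_2_ok RS0_ok _ kS0_39_ok) al_nil))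

theorem cS0_13 : ∀ b ∈ ([kS0_40] : List Bw), BoxOK rS0 (MCA.rA (81 * 177147) 4782969 gS0 lS0) (itB b) :=
  (al_cons (bok _ dS0_2 _ _ dS0_2_ok RS0_ok _ kS0_40_ok) al_nil)

theorem cS0_14 : ∀ b ∈ ([kS0_41] : List Bw), BoxOK rS0 (MCA.rA (81 * 177147) 4782969 gS0 lS0) (itB b) :=
  (al_cons (bok _ dS0_2 _ _ dS0_2_ok RS0_ok _ kS0_41_ok) al_nil)

theorem covS0 : Cov (covS 0 1) rS0 (MCA.rA (81 * 177147) 4782969 gS0 lS0) :=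
  cov_of LS0 (by decide +kernel) (al_cons cS0_0 (al_cons cS0_1 (al_cons cS0_2 (al_cons cS0_3 (al_cons cS0_4 (al_cons cS0_5 (al_cons cS0_6 (al_cons cS0_7 (al_cons cS0_8 (al_cons cS0_9 (al_cons cS0_10 (al_cons cS0_11 (al_cons cS0_12 (al_cons cS0_13 (al_cons cS0_14 al_nil)))))))))))))))

def LG0 : List (List Bw) := [[kG0_0],
  [kG0_1],
  [kG0_2],
  [kG0_3],
  [kG0_4],
  [kG0_5],
  [kG0_6],
  [kG0_7],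
  [kG0_8]]

theorem cG0_0 : ∀ b ∈ ([kG0_0] : List Bw), BoxOK rG0 (eGA 4782969 gC0 gS0 wG0) (itB b) :=
  (al_cons (bok _ dG0_0 _ _ dG0_0_ok RG0_ok _ kG0_0_ok) al_nil)

theorem cG0_1 : ∀ b ∈ ([kG0_1] : List Bw), BoxOK rG0 (eGA 4782969 gC0 gS0 wG0) (itB b) :=
  (al_cons (bok _ dG0_0 _ _ dG0_0_ok RG0_ok _ kG0_1_ok) al_nil)

theorem cG0_2 : ∀ b ∈ ([kG0_2] : List Bw), BoxOK rG0 (eGA 4782969 gC0 gS0 wG0) (itB b) :=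
  (al_cons (bok _ dG0_0 _ _ dG0_0_ok RG0_ok _ kG0_2_ok) al_nil)

theorem cG0_3 : ∀ b ∈ ([kG0_3] : List Bw), BoxOK rG0 (eGA 4782969 gC0 gS0 wG0) (itB b) :=
  (al_cons (bok _ dG0_0 _ _ dG0_0_ok RG0_ok _ kG0_3_ok) al_nil)

theorem cG0_4 : ∀ b ∈ ([kG0_4] : List Bw), BoxOK rG0 (eGA 4782969 gC0 gS0 wG0) (itB b) :=
  (al_cons (bok _ dG0_0 _ _ dG0_0_ok RG0_ok _ kG0_4_ok) al_nil)

theorem cG0_5 : ∀ b ∈ ([kG0_5] : List Bw), BoxOK rG0 (eGA 4782969 gC0 gS0 wG0) (itB b) :=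
  (al_cons (bok _ dG0_0 _ _ dG0_0_ok RG0_ok _ kG0_5_ok) al_nil)

theorem cG0_6 : ∀ b ∈ ([kG0_6] : List Bw), BoxOK rG0 (eGA 4782969 gC0 gS0 wG0) (itB b) :=
  (al_cons (bok _ dG0_0 _ _ dG0_0_ok RG0_ok _ kG0_6_ok) al_nil)

theorem cG0_7 : ∀ b ∈ ([kG0_7] : List Bw), BoxOK rG0 (eGA 4782969 gC0 gS0 wG0) (itB b) :=
  (al_cons (bok _ dG0_0 _ _ dG0_0_ok RG0_ok _ kG0_7_ok) al_nil)

theorem cG0_8 : ∀ b ∈ ([kG0_8] : List Bw), BoxOK rG0 (eGA 4782969 gC0 gS0 wG0) (itB b) :=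
  (al_cons (bok _ dG0_0 _ _ dG0_0_ok RG0_ok _ kG0_8_ok) al_nil)

theorem covG0 : Cov (covR 0 1 0 1) rG0 (eGA 4782969 gC0 gS0 wG0) :=
  cov_of LG0 (by decide +kernel) (al_cons cG0_0 (al_cons cG0_1 (al_cons cG0_2 (al_cons cG0_3 (al_cons cG0_4 (al_cons cG0_5 (al_cons cG0_6 (al_cons cG0_7 (al_cons cG0_8 al_nil)))))))))

def LX0 : List (List Bw) := [[kX0_0, kX0_1, kX0_2, kX0_3, kX0_4, kX0_5, kX0_6, kX0_7, kX0_8]]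

theorem cX0_0 : ∀ b ∈ ([kX0_0, kX0_1, kX0_2, kX0_3, kX0_4, kX0_5, kX0_6, kX0_7, kX0_8] : List Bw), BoxOK rX0 (eX 4782969 81 gC0 F1 wX0 vX0) (itB b) :=
  (al_cons (bok _ dX0_0 _ _ dX0_0_ok RX0_ok _ kX0_0_ok) (al_cons (bok _ dX0_0 _ _ dX0_0_ok RX0_ok _ kX0_1_ok) (al_cons (bok _ dX0_0 _ _ dX0_0_ok RX0_ok _ kX0_2_ok) (al_cons (bok _ dX0_0 _ _ dX0_0_ok RX0_ok _ kX0_3_ok) (al_cons (bok _ dX0_0 _ _ dX0_0_ok RX0_ok _ kX0_4_ok) (al_cons (bok _ dX0_0 _ _ dX0_0_ok RX0_ok _ kX0_5_ok) (al_cons (bok _ dX0_0 _ _ dX0_0_ok RX0_ok _ kX0_6_ok) (al_cons (bok _ dX0_0 _ _ dX0_0_ok RX0_ok _ kX0_7_ok) (al_cons (bok _ dX0_0 _ _ dX0_0_ok RX0_ok _ kX0_8_ok) al_nil)))))))))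

theorem covX0 : Cov (covR 0 1 0 1) rX0 (eX 4782969 81 gC0 F1 wX0 vX0) :=
  cov_of LX0 (by decide +kernel) (al_cons cX0_0 al_nil)

def LY0 : List (List Bw) := [[kY0_0],
  [kY0_1],
  [kY0_2],
  [kY0_3],
  [kY0_4],
  [kY0_5],
  [kY0_6],
  [kY0_7],
  [kY0_8]]

theorem cY0_0 : ∀ b ∈ ([kY0_0] : List Bw), BoxOK rY0 ((eC 4782969 81 gS0 F2 wY0 vY0).map M2) (itB b) :=
  (al_cons (bok _ dY0_0 _ _ dY0_0_ok RY0_ok _ kY0_0_ok) al_nil)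

theorem cY0_1 : ∀ b ∈ ([kY0_1] : List Bw), BoxOK rY0 ((eC 4782969 81 gS0 F2 wY0 vY0).map M2) (itB b) :=
  (al_cons (bok _ dY0_0 _ _ dY0_0_ok RY0_ok _ kY0_1_ok) al_nil)

theorem cY0_2 : ∀ b ∈ ([kY0_2] : List Bw), BoxOK rY0 ((eC 4782969 81 gS0 F2 wY0 vY0).map M2) (itB b) :=
  (al_cons (bok _ dY0_0 _ _ dY0_0_ok RY0_ok _ kY0_2_ok) al_nil)

theorem cY0_3 : ∀ b ∈ ([kY0_3] : List Bw), BoxOK rY0 ((eC 4782969 81 gS0 F2 wY0 vY0).map M2) (itB b) :=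
  (al_cons (bok _ dY0_0 _ _ dY0_0_ok RY0_ok _ kY0_3_ok) al_nil)

theorem cY0_4 : ∀ b ∈ ([kY0_4] : List Bw), BoxOK rY0 ((eC 4782969 81 gS0 F2 wY0 vY0).map M2) (itB b) :=
  (al_cons (bok _ dY0_0 _ _ dY0_0_ok RY0_ok _ kY0_4_ok) al_nil)

theorem cY0_5 : ∀ b ∈ ([kY0_5] : List Bw), BoxOK rY0 ((eC 4782969 81 gS0 F2 wY0 vY0).map M2) (itB b) :=
  (al_cons (bok _ dY0_0 _ _ dY0_0_ok RY0_ok _ kY0_5_ok) al_nil)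

theorem cY0_6 : ∀ b ∈ ([kY0_6] : List Bw), BoxOK rY0 ((eC 4782969 81 gS0 F2 wY0 vY0).map M2) (itB b) :=
  (al_cons (bok _ dY0_0 _ _ dY0_0_ok RY0_ok _ kY0_6_ok) al_nil)

theorem cY0_7 : ∀ b ∈ ([kY0_7] : List Bw), BoxOK rY0 ((eC 4782969 81 gS0 F2 wY0 vY0).map M2) (itB b) :=
  (al_cons (bok _ dY0_0 _ _ dY0_0_ok RY0_ok _ kY0_7_ok) al_nil)

theorem cY0_8 : ∀ b ∈ ([kY0_8] : List Bw), BoxOK rY0 ((eC 4782969 81 gS0 F2 wY0 vY0).map M2) (itB b) :=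
  (al_cons (bok _ dY0_0 _ _ dY0_0_ok RY0_ok _ kY0_8_ok) al_nil)

theorem covY0 : Cov (covC 0 1) rY0 ((eC 4782969 81 gS0 F2 wY0 vY0).map M2) :=
  cov_of LY0 (by decide +kernel) (al_cons cY0_0 (al_cons cY0_1 (al_cons cY0_2 (al_cons cY0_3 (al_cons cY0_4 (al_cons cY0_5 (al_cons cY0_6 (al_cons cY0_7 (al_cons cY0_8 al_nil)))))))))

theorem ax0 : Cov (covR 0 1 0 1) crA (eAY 4782969 gC0 gC0 []) := cov_zero (by decide +kernel)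

def K2_0 : P := [[-672967, 5445233, 243579], [5161880, -7290220], [-10659689], [9947863], [-2423832]]

theorem K2_0_ok : eqP gS0.K (pMul curP K2_0) = true := by decide +kernel

def LC1 : List (List Bw) := [[kC1_0, kC1_1, kC1_2, kC1_3, kC1_4],
  [kC1_5, kC1_6, kC1_7, kC1_8, kC1_9],
  [kC1_10, kC1_11, kC1_12, kC1_13, kC1_14],
  [kC1_15, kC1_16, kC1_17, kC1_18, kC1_19],
  [kC1_20, kC1_21, kC1_22, kC1_23, kC1_24],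
  [kC1_25, kC1_26, kC1_27, kC1_28, kC1_29, kC1_30],
  [kC1_31, kC1_32, kC1_33, kC1_34, kC1_35, kC1_36],
  [kC1_37, kC1_38, kC1_39, kC1_40, kC1_41, kC1_42, kC1_43, kC1_44],
  [kC1_45, kC1_46, kC1_47, kC1_48, kC1_49, kC1_50, kC1_51],
  [kC1_52, kC1_53, kC1_54, kC1_55, kC1_56]]

theorem cC1_0 : ∀ b ∈ ([kC1_0, kC1_1, kC1_2, kC1_3, kC1_4] : List Bw), BoxOK rC1 (MCA.rA (81 * 177147) 4782969 gC1 lC1) (itB b) :=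
  (al_cons (bok _ dC1_0 _ _ dC1_0_ok RC1_ok _ kC1_0_ok) (al_cons (bok _ dC1_0 _ _ dC1_0_ok RC1_ok _ kC1_1_ok) (al_cons (bok _ dC1_0 _ _ dC1_0_ok RC1_ok _ kC1_2_ok) (al_cons (bok _ dC1_0 _ _ dC1_0_ok RC1_ok _ kC1_3_ok) (al_cons (bok _ dC1_0 _ _ dC1_0_ok RC1_ok _ kC1_4_ok) al_nil)))))

theorem cC1_1 : ∀ b ∈ ([kC1_5, kC1_6, kC1_7, kC1_8, kC1_9] : List Bw), BoxOK rC1 (MCA.rA (81 * 177147) 4782969 gC1 lC1) (itB b) :=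
  (al_cons (bok _ dC1_0 _ _ dC1_0_ok RC1_ok _ kC1_5_ok) (al_cons (bok _ dC1_0 _ _ dC1_0_ok RC1_ok _ kC1_6_ok) (al_cons (bok _ dC1_0 _ _ dC1_0_ok RC1_ok _ kC1_7_ok) (al_cons (bok _ dC1_0 _ _ dC1_0_ok RC1_ok _ kC1_8_ok) (al_cons (bok _ dC1_0 _ _ dC1_0_ok RC1_ok _ kC1_9_ok) al_nil)))))

theorem cC1_2 : ∀ b ∈ ([kC1_10, kC1_11, kC1_12, kC1_13, kC1_14] : List Bw), BoxOK rC1 (MCA.rA (81 * 177147) 4782969 gC1 lC1) (itB b) :=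
  (al_cons (bok _ dC1_0 _ _ dC1_0_ok RC1_ok _ kC1_10_ok) (al_cons (bok _ dC1_0 _ _ dC1_0_ok RC1_ok _ kC1_11_ok) (al_cons (bok _ dC1_0 _ _ dC1_0_ok RC1_ok _ kC1_12_ok) (al_cons (bok _ dC1_0 _ _ dC1_0_ok RC1_ok _ kC1_13_ok) (al_cons (bok _ dC1_0 _ _ dC1_0_ok RC1_ok _ kC1_14_ok) al_nil)))))

theorem cC1_3 : ∀ b ∈ ([kC1_15, kC1_16, kC1_17, kC1_18, kC1_19] : List Bw), BoxOK rC1 (MCA.rA (81 * 177147) 4782969 gC1 lC1) (itB b) :=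
  (al_cons (bok _ dC1_0 _ _ dC1_0_ok RC1_ok _ kC1_15_ok) (al_cons (bok _ dC1_0 _ _ dC1_0_ok RC1_ok _ kC1_16_ok) (al_cons (bok _ dC1_0 _ _ dC1_0_ok RC1_ok _ kC1_17_ok) (al_cons (bok _ dC1_0 _ _ dC1_0_ok RC1_ok _ kC1_18_ok) (al_cons (bok _ dC1_0 _ _ dC1_0_ok RC1_ok _ kC1_19_ok) al_nil)))))

theorem cC1_4 : ∀ b ∈ ([kC1_20, kC1_21, kC1_22, kC1_23, kC1_24] : List Bw), BoxOK rC1 (MCA.rA (81 * 177147) 4782969 gC1 lC1) (itB b) :=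
  (al_cons (bok _ dC1_0 _ _ dC1_0_ok RC1_ok _ kC1_20_ok) (al_cons (bok _ dC1_0 _ _ dC1_0_ok RC1_ok _ kC1_21_ok) (al_cons (bok _ dC1_0 _ _ dC1_0_ok RC1_ok _ kC1_22_ok) (al_cons (bok _ dC1_0 _ _ dC1_0_ok RC1_ok _ kC1_23_ok) (al_cons (bok _ dC1_0 _ _ dC1_0_ok RC1_ok _ kC1_24_ok) al_nil)))))

theorem cC1_5 : ∀ b ∈ ([kC1_25, kC1_26, kC1_27, kC1_28, kC1_29, kC1_30] : List Bw), BoxOK rC1 (MCA.rA (81 * 177147) 4782969 gC1 lC1) (itB b) :=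
  (al_cons (bok _ dC1_4 _ _ dC1_4_ok RC1_ok _ kC1_25_ok) (al_cons (bok _ dC1_4 _ _ dC1_4_ok RC1_ok _ kC1_26_ok) (al_cons (bok _ dC1_0 _ _ dC1_0_ok RC1_ok _ kC1_27_ok) (al_cons (bok _ dC1_0 _ _ dC1_0_ok RC1_ok _ kC1_28_ok) (al_cons (bok _ dC1_0 _ _ dC1_0_ok RC1_ok _ kC1_29_ok) (al_cons (bok _ dC1_0 _ _ dC1_0_ok RC1_ok _ kC1_30_ok) al_nil))))))

theorem cC1_6 : ∀ b ∈ ([kC1_31, kC1_32, kC1_33, kC1_34, kC1_35, kC1_36] : List Bw), BoxOK rC1 (MCA.rA (81 * 177147) 4782969 gC1 lC1) (itB b) :=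
  (al_cons (bok _ dC1_4 _ _ dC1_4_ok RC1_ok _ kC1_31_ok) (al_cons (bok _ dC1_4 _ _ dC1_4_ok RC1_ok _ kC1_32_ok) (al_cons (bok _ dC1_4 _ _ dC1_4_ok RC1_ok _ kC1_33_ok) (al_cons (bok _ dC1_4 _ _ dC1_4_ok RC1_ok _ kC1_34_ok) (al_cons (bok _ dC1_4 _ _ dC1_4_ok RC1_ok _ kC1_35_ok) (al_cons (bok _ dC1_4 _ _ dC1_4_ok RC1_ok _ kC1_36_ok) al_nil))))))

theorem cC1_7 : ∀ b ∈ ([kC1_37, kC1_38, kC1_39, kC1_40, kC1_41, kC1_42, kC1_43, kC1_44] : List Bw), BoxOK rC1 (MCA.rA (81 * 177147) 4782969 gC1 lC1) (itB b) :=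
  (al_cons (bok _ dC1_4 _ _ dC1_4_ok RC1_ok _ kC1_37_ok) (al_cons (bok _ dC1_4 _ _ dC1_4_ok RC1_ok _ kC1_38_ok) (al_cons (bok _ dC1_4 _ _ dC1_4_ok RC1_ok _ kC1_39_ok) (al_cons (bok _ dC1_4 _ _ dC1_4_ok RC1_ok _ kC1_40_ok) (al_cons (bok _ dC1_3 _ _ dC1_3_ok RC1_ok _ kC1_41_ok) (al_cons (bok _ dC1_3 _ _ dC1_3_ok RC1_ok _ kC1_42_ok) (al_cons (bok _ dC1_3 _ _ dC1_3_ok RC1_ok _ kC1_43_ok) (al_cons (bok _ dC1_3 _ _ dC1_3_ok RC1_ok _ kC1_44_ok) al_nil))))))))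

theorem cC1_8 : ∀ b ∈ ([kC1_45, kC1_46, kC1_47, kC1_48, kC1_49, kC1_50, kC1_51] : List Bw), BoxOK rC1 (MCA.rA (81 * 177147) 4782969 gC1 lC1) (itB b) :=
  (al_cons (bok _ dC1_2 _ _ dC1_2_ok RC1_ok _ kC1_45_ok) (al_cons (bok _ dC1_2 _ _ dC1_2_ok RC1_ok _ kC1_46_ok) (al_cons (bok _ dC1_2 _ _ dC1_2_ok RC1_ok _ kC1_47_ok) (al_cons (bok _ dC1_2 _ _ dC1_2_ok RC1_ok _ kC1_48_ok) (al_cons (bok _ dC1_2 _ _ dC1_2_ok RC1_ok _ kC1_49_ok) (al_cons (bok _ dC1_1 _ _ dC1_1_ok RC1_ok _ kC1_50_ok) (al_cons (bok _ dC1_1 _ _ dC1_1_ok RC1_ok _ kC1_51_ok) al_nil)))))))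

theorem cC1_9 : ∀ b ∈ ([kC1_52, kC1_53, kC1_54, kC1_55, kC1_56] : List Bw), BoxOK rC1 (MCA.rA (81 * 177147) 4782969 gC1 lC1) (itB b) :=
  (al_cons (bok _ dC1_2 _ _ dC1_2_ok RC1_ok _ kC1_52_ok) (al_cons (bok _ dC1_2 _ _ dC1_2_ok RC1_ok _ kC1_53_ok) (al_cons (bok _ dC1_2 _ _ dC1_2_ok RC1_ok _ kC1_54_ok) (al_cons (bok _ dC1_2 _ _ dC1_2_ok RC1_ok _ kC1_55_ok) (al_cons (bok _ dC1_2 _ _ dC1_2_ok RC1_ok _ kC1_56_ok) al_nil)))))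

theorem covC1 : Cov (covR 0 1 0 1) rC1 (MCA.rA (81 * 177147) 4782969 gC1 lC1) :=
  cov_of LC1 (by decide +kernel) (al_cons cC1_0 (al_cons cC1_1 (al_cons cC1_2 (al_cons cC1_3 (al_cons cC1_4 (al_cons cC1_5 (al_cons cC1_6 (al_cons cC1_7 (al_cons cC1_8 (al_cons cC1_9 al_nil))))))))))

def LS1 : List (List Bw) := [[kS1_0, kS1_1, kS1_2, kS1_3],
  [kS1_4, kS1_5, kS1_6],
  [kS1_7, kS1_8, kS1_9],
  [kS1_10, kS1_11, kS1_12],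
  [kS1_13, kS1_14, kS1_15, kS1_16],
  [kS1_17, kS1_18, kS1_19, kS1_20],
  [kS1_21, kS1_22, kS1_23, kS1_24],
  [kS1_25, kS1_26, kS1_27],
  [kS1_28, kS1_29, kS1_30],
  [kS1_31, kS1_32, kS1_33],
  [kS1_34, kS1_35, kS1_36],
  [kS1_37, kS1_38],
  [kS1_39],
  [kS1_40],
  [kS1_41],
  [kS1_42]]

theorem cS1_0 : ∀ b ∈ ([kS1_0, kS1_1, kS1_2, kS1_3] : List Bw), BoxOK rS1 (MCA.rA (81 * 177147) 4782969 gS1 lS1) (itB b) :=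
  (al_cons (bok _ dS1_1 _ _ dS1_1_ok RS1_ok _ kS1_0_ok) (al_cons (bok _ dS1_1 _ _ dS1_1_ok RS1_ok _ kS1_1_ok) (al_cons (bok _ dS1_0 _ _ dS1_0_ok RS1_ok _ kS1_2_ok) (al_cons (bok _ dS1_0 _ _ dS1_0_ok RS1_ok _ kS1_3_ok) al_nil))))

theorem cS1_1 : ∀ b ∈ ([kS1_4, kS1_5, kS1_6] : List Bw), BoxOK rS1 (MCA.rA (81 * 177147) 4782969 gS1 lS1) (itB b) :=
  (al_cons (bok _ dS1_1 _ _ dS1_1_ok RS1_ok _ kS1_4_ok) (al_cons (bok _ dS1_1 _ _ dS1_1_ok RS1_ok _ kS1_5_ok) (al_cons (bok _ dS1_0 _ _ dS1_0_ok RS1_ok _ kS1_6_ok) al_nil)))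

theorem cS1_2 : ∀ b ∈ ([kS1_7, kS1_8, kS1_9] : List Bw), BoxOK rS1 (MCA.rA (81 * 177147) 4782969 gS1 lS1) (itB b) :=
  (al_cons (bok _ dS1_1 _ _ dS1_1_ok RS1_ok _ kS1_7_ok) (al_cons (bok _ dS1_1 _ _ dS1_1_ok RS1_ok _ kS1_8_ok) (al_cons (bok _ dS1_0 _ _ dS1_0_ok RS1_ok _ kS1_9_ok) al_nil)))

theorem cS1_3 : ∀ b ∈ ([kS1_10, kS1_11, kS1_12] : List Bw), BoxOK rS1 (MCA.rA (81 * 177147) 4782969 gS1 lS1) (itB b) :=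
  (al_cons (bok _ dS1_1 _ _ dS1_1_ok RS1_ok _ kS1_10_ok) (al_cons (bok _ dS1_1 _ _ dS1_1_ok RS1_ok _ kS1_11_ok) (al_cons (bok _ dS1_0 _ _ dS1_0_ok RS1_ok _ kS1_12_ok) al_nil)))

theorem cS1_4 : ∀ b ∈ ([kS1_13, kS1_14, kS1_15, kS1_16] : List Bw), BoxOK rS1 (MCA.rA (81 * 177147) 4782969 gS1 lS1) (itB b) :=
  (al_cons (bok _ dS1_1 _ _ dS1_1_ok RS1_ok _ kS1_13_ok) (al_cons (bok _ dS1_1 _ _ dS1_1_ok RS1_ok _ kS1_14_ok) (al_cons (bok _ dS1_0 _ _ dS1_0_ok RS1_ok _ kS1_15_ok) (al_cons (bok _ dS1_0 _ _ dS1_0_ok RS1_ok _ kS1_16_ok) al_nil))))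

theorem cS1_5 : ∀ b ∈ ([kS1_17, kS1_18, kS1_19, kS1_20] : List Bw), BoxOK rS1 (MCA.rA (81 * 177147) 4782969 gS1 lS1) (itB b) :=
  (al_cons (bok _ dS1_1 _ _ dS1_1_ok RS1_ok _ kS1_17_ok) (al_cons (bok _ dS1_0 _ _ dS1_0_ok RS1_ok _ kS1_18_ok) (al_cons (bok _ dS1_0 _ _ dS1_0_ok RS1_ok _ kS1_19_ok) (al_cons (bok _ dS1_0 _ _ dS1_0_ok RS1_ok _ kS1_20_ok) al_nil))))

theorem cS1_6 : ∀ b ∈ ([kS1_21, kS1_22, kS1_23, kS1_24] : List Bw), BoxOK rS1 (MCA.rA (81 * 177147) 4782969 gS1 lS1) (itB b) :=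
  (al_cons (bok _ dS1_1 _ _ dS1_1_ok RS1_ok _ kS1_21_ok) (al_cons (bok _ dS1_0 _ _ dS1_0_ok RS1_ok _ kS1_22_ok) (al_cons (bok _ dS1_0 _ _ dS1_0_ok RS1_ok _ kS1_23_ok) (al_cons (bok _ dS1_0 _ _ dS1_0_ok RS1_ok _ kS1_24_ok) al_nil))))

theorem cS1_7 : ∀ b ∈ ([kS1_25, kS1_26, kS1_27] : List Bw), BoxOK rS1 (MCA.rA (81 * 177147) 4782969 gS1 lS1) (itB b) :=
  (al_cons (bok _ dS1_1 _ _ dS1_1_ok RS1_ok _ kS1_25_ok) (al_cons (bok _ dS1_0 _ _ dS1_0_ok RS1_ok _ kS1_26_ok) (al_cons (bok _ dS1_0 _ _ dS1_0_ok RS1_ok _ kS1_27_ok) al_nil)))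

theorem cS1_8 : ∀ b ∈ ([kS1_28, kS1_29, kS1_30] : List Bw), BoxOK rS1 (MCA.rA (81 * 177147) 4782969 gS1 lS1) (itB b) :=
  (al_cons (bok _ dS1_1 _ _ dS1_1_ok RS1_ok _ kS1_28_ok) (al_cons (bok _ dS1_0 _ _ dS1_0_ok RS1_ok _ kS1_29_ok) (al_cons (bok _ dS1_0 _ _ dS1_0_ok RS1_ok _ kS1_30_ok) al_nil)))

theorem cS1_9 : ∀ b ∈ ([kS1_31, kS1_32, kS1_33] : List Bw), BoxOK rS1 (MCA.rA (81 * 177147) 4782969 gS1 lS1) (itB b) :=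
  (al_cons (bok _ dS1_1 _ _ dS1_1_ok RS1_ok _ kS1_31_ok) (al_cons (bok _ dS1_3 _ _ dS1_3_ok RS1_ok _ kS1_32_ok) (al_cons (bok _ dS1_0 _ _ dS1_0_ok RS1_ok _ kS1_33_ok) al_nil)))

theorem cS1_10 : ∀ b ∈ ([kS1_34, kS1_35, kS1_36] : List Bw), BoxOK rS1 (MCA.rA (81 * 177147) 4782969 gS1 lS1) (itB b) :=
  (al_cons (bok _ dS1_0 _ _ dS1_0_ok RS1_ok _ kS1_34_ok) (al_cons (bok _ dS1_0 _ _ dS1_0_ok RS1_ok _ kS1_35_ok) (al_cons (bok _ dS1_0 _ _ dS1_0_ok RS1_ok _ kS1_36_ok) al_nil)))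

theorem cS1_11 : ∀ b ∈ ([kS1_37, kS1_38] : List Bw), BoxOK rS1 (MCA.rA (81 * 177147) 4782969 gS1 lS1) (itB b) :=
  (al_cons (bok _ dS1_0 _ _ dS1_0_ok RS1_ok _ kS1_37_ok) (al_cons (bok _ dS1_0 _ _ dS1_0_ok RS1_ok _ kS1_38_ok) al_nil))

theorem cS1_12 : ∀ b ∈ ([kS1_39] : List Bw), BoxOK rS1 (MCA.rA (81 * 177147) 4782969 gS1 lS1) (itB b) :=
  (al_cons (bok _ dS1_4 _ _ dS1_4_ok RS1_ok _ kS1_39_ok) al_nil)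

theorem cS1_13 : ∀ b ∈ ([kS1_40] : List Bw), BoxOK rS1 (MCA.rA (81 * 177147) 4782969 gS1 lS1) (itB b) :=
  (al_cons (bok _ dS1_3 _ _ dS1_3_ok RS1_ok _ kS1_40_ok) al_nil)

theorem cS1_14 : ∀ b ∈ ([kS1_41] : List Bw), BoxOK rS1 (MCA.rA (81 * 177147) 4782969 gS1 lS1) (itB b) :=
  (al_cons (bok _ dS1_2 _ _ dS1_2_ok RS1_ok _ kS1_41_ok) al_nil)

theorem cS1_15 : ∀ b ∈ ([kS1_42] : List Bw), BoxOK rS1 (MCA.rA (81 * 177147) 4782969 gS1 lS1) (itB b) :=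
  (al_cons (bok _ dS1_2 _ _ dS1_2_ok RS1_ok _ kS1_42_ok) al_nil)

theorem covS1 : Cov (covS 0 1) rS1 (MCA.rA (81 * 177147) 4782969 gS1 lS1) :=
  cov_of LS1 (by decide +kernel) (al_cons cS1_0 (al_cons cS1_1 (al_cons cS1_2 (al_cons cS1_3 (al_cons cS1_4 (al_cons cS1_5 (al_cons cS1_6 (al_cons cS1_7 (al_cons cS1_8 (al_cons cS1_9 (al_cons cS1_10 (al_cons cS1_11 (al_cons cS1_12 (al_cons cS1_13 (al_cons cS1_14 (al_cons cS1_15 al_nil))))))))))))))))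

def LG1 : List (List Bw) := [[kG1_0],
  [kG1_1],
  [kG1_2],
  [kG1_3],
  [kG1_4],
  [kG1_5],
  [kG1_6],
  [kG1_7],
  [kG1_8]]

theorem cG1_0 : ∀ b ∈ ([kG1_0] : List Bw), BoxOK rG1 (eGA 4782969 gC1 gS1 wG1) (itB b) :=
  (al_cons (bok _ dG1_0 _ _ dG1_0_ok RG1_ok _ kG1_0_ok) al_nil)

theorem cG1_1 : ∀ b ∈ ([kG1_1] : List Bw), BoxOK rG1 (eGA 4782969 gC1 gS1 wG1) (itB b) :=
  (al_cons (bok _ dG1_0 _ _ dG1_0_ok RG1_ok _ kG1_1_ok) al_nil)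

theorem cG1_2 : ∀ b ∈ ([kG1_2] : List Bw), BoxOK rG1 (eGA 4782969 gC1 gS1 wG1) (itB b) :=
  (al_cons (bok _ dG1_0 _ _ dG1_0_ok RG1_ok _ kG1_2_ok) al_nil)

theorem cG1_3 : ∀ b ∈ ([kG1_3] : List Bw), BoxOK rG1 (eGA 4782969 gC1 gS1 wG1) (itB b) :=
  (al_cons (bok _ dG1_0 _ _ dG1_0_ok RG1_ok _ kG1_3_ok) al_nil)

theorem cG1_4 : ∀ b ∈ ([kG1_4] : List Bw), BoxOK rG1 (eGA 4782969 gC1 gS1 wG1) (itB b) :=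
  (al_cons (bok _ dG1_0 _ _ dG1_0_ok RG1_ok _ kG1_4_ok) al_nil)

theorem cG1_5 : ∀ b ∈ ([kG1_5] : List Bw), BoxOK rG1 (eGA 4782969 gC1 gS1 wG1) (itB b) :=
  (al_cons (bok _ dG1_0 _ _ dG1_0_ok RG1_ok _ kG1_5_ok) al_nil)

theorem cG1_6 : ∀ b ∈ ([kG1_6] : List Bw), BoxOK rG1 (eGA 4782969 gC1 gS1 wG1) (itB b) :=
  (al_cons (bok _ dG1_0 _ _ dG1_0_ok RG1_ok _ kG1_6_ok) al_nil)

theorem cG1_7 : ∀ b ∈ ([kG1_7] : List Bw), BoxOK rG1 (eGA 4782969 gC1 gS1 wG1) (itB b) :=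
  (al_cons (bok _ dG1_0 _ _ dG1_0_ok RG1_ok _ kG1_7_ok) al_nil)

theorem cG1_8 : ∀ b ∈ ([kG1_8] : List Bw), BoxOK rG1 (eGA 4782969 gC1 gS1 wG1) (itB b) :=
  (al_cons (bok _ dG1_0 _ _ dG1_0_ok RG1_ok _ kG1_8_ok) al_nil)

theorem covG1 : Cov (covR 0 1 0 1) rG1 (eGA 4782969 gC1 gS1 wG1) :=
  cov_of LG1 (by decide +kernel) (al_cons cG1_0 (al_cons cG1_1 (al_cons cG1_2 (al_cons cG1_3 (al_cons cG1_4 (al_cons cG1_5 (al_cons cG1_6 (al_cons cG1_7 (al_cons cG1_8 al_nil)))))))))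

def LX1 : List (List Bw) := [[kX1_0, kX1_1, kX1_2, kX1_3, kX1_4, kX1_5, kX1_6, kX1_7, kX1_8]]

theorem cX1_0 : ∀ b ∈ ([kX1_0, kX1_1, kX1_2, kX1_3, kX1_4, kX1_5, kX1_6, kX1_7, kX1_8] : List Bw), BoxOK rX1 (eX 4782969 81 gC1 F2 wX1 vX1) (itB b) :=
  (al_cons (bok _ dX1_0 _ _ dX1_0_ok RX1_ok _ kX1_0_ok) (al_cons (bok _ dX1_0 _ _ dX1_0_ok RX1_ok _ kX1_1_ok) (al_cons (bok _ dX1_0 _ _ dX1_0_ok RX1_ok _ kX1_2_ok) (al_cons (bok _ dX1_0 _ _ dX1_0_ok RX1_ok _ kX1_3_ok) (al_cons (bok _ dX1_0 _ _ dX1_0_ok RX1_ok _ kX1_4_ok) (al_cons (bok _ dX1_0 _ _ dX1_0_ok RX1_ok _ kX1_5_ok) (al_cons (bok _ dX1_0 _ _ dX1_0_ok RX1_ok _ kX1_6_ok) (al_cons (bok _ dX1_0 _ _ dX1_0_ok RX1_ok _ kX1_7_ok) (al_cons (bok _ dX1_0 _ _ dX1_0_ok RX1_ok _ kX1_8_ok) al_nil)))))))))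

theorem covX1 : Cov (covR 0 1 0 1) rX1 (eX 4782969 81 gC1 F2 wX1 vX1) :=
  cov_of LX1 (by decide +kernel) (al_cons cX1_0 al_nil)

def LY1 : List (List Bw) := [[kY1_0],
  [kY1_1],
  [kY1_2],
  [kY1_3],
  [kY1_4],
  [kY1_5],
  [kY1_6],
  [kY1_7],
  [kY1_8]]

theorem cY1_0 : ∀ b ∈ ([kY1_0] : List Bw), BoxOK rY1 ((eC 4782969 81 gS1 F2 wY1 vY1).map M2) (itB b) :=
  (al_cons (bok _ dY1_0 _ _ dY1_0_ok RY1_ok _ kY1_0_ok) al_nil)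

theorem cY1_1 : ∀ b ∈ ([kY1_1] : List Bw), BoxOK rY1 ((eC 4782969 81 gS1 F2 wY1 vY1).map M2) (itB b) :=
  (al_cons (bok _ dY1_0 _ _ dY1_0_ok RY1_ok _ kY1_1_ok) al_nil)

theorem cY1_2 : ∀ b ∈ ([kY1_2] : List Bw), BoxOK rY1 ((eC 4782969 81 gS1 F2 wY1 vY1).map M2) (itB b) :=
  (al_cons (bok _ dY1_0 _ _ dY1_0_ok RY1_ok _ kY1_2_ok) al_nil)

theorem cY1_3 : ∀ b ∈ ([kY1_3] : List Bw), BoxOK rY1 ((eC 4782969 81 gS1 F2 wY1 vY1).map M2) (itB b) :=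
  (al_cons (bok _ dY1_0 _ _ dY1_0_ok RY1_ok _ kY1_3_ok) al_nil)

theorem cY1_4 : ∀ b ∈ ([kY1_4] : List Bw), BoxOK rY1 ((eC 4782969 81 gS1 F2 wY1 vY1).map M2) (itB b) :=
  (al_cons (bok _ dY1_0 _ _ dY1_0_ok RY1_ok _ kY1_4_ok) al_nil)

theorem cY1_5 : ∀ b ∈ ([kY1_5] : List Bw), BoxOK rY1 ((eC 4782969 81 gS1 F2 wY1 vY1).map M2) (itB b) :=
  (al_cons (bok _ dY1_0 _ _ dY1_0_ok RY1_ok _ kY1_5_ok) al_nil)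

theorem cY1_6 : ∀ b ∈ ([kY1_6] : List Bw), BoxOK rY1 ((eC 4782969 81 gS1 F2 wY1 vY1).map M2) (itB b) :=
  (al_cons (bok _ dY1_0 _ _ dY1_0_ok RY1_ok _ kY1_6_ok) al_nil)

theorem cY1_7 : ∀ b ∈ ([kY1_7] : List Bw), BoxOK rY1 ((eC 4782969 81 gS1 F2 wY1 vY1).map M2) (itB b) :=
  (al_cons (bok _ dY1_0 _ _ dY1_0_ok RY1_ok _ kY1_7_ok) al_nil)

theorem cY1_8 : ∀ b ∈ ([kY1_8] : List Bw), BoxOK rY1 ((eC 4782969 81 gS1 F2 wY1 vY1).map M2) (itB b) :=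
  (al_cons (bok _ dY1_0 _ _ dY1_0_ok RY1_ok _ kY1_8_ok) al_nil)

theorem covY1 : Cov (covC 0 1) rY1 ((eC 4782969 81 gS1 F2 wY1 vY1).map M2) :=
  cov_of LY1 (by decide +kernel) (al_cons cY1_0 (al_cons cY1_1 (al_cons cY1_2 (al_cons cY1_3 (al_cons cY1_4 (al_cons cY1_5 (al_cons cY1_6 (al_cons cY1_7 (al_cons cY1_8 al_nil)))))))))

theorem ax1 : Cov (covR 0 1 0 1) crA (eAY 4782969 gC1 gC1 []) := cov_zero (by decide +kernel)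

def K2_1 : P := [[-672967, 5445233, 243579], [5521036, -6058970], [-13982083], [14736140], [-5136207]]

theorem K2_1_ok : eqP gS1.K (pMul curP K2_1) = true := by decide +kernel

/-- the data of the square -/
def sq : Sqd where
  DL := 4782969
  DF := 177147
  kf := 81
  gC := fun σ => if σ then gC1 else gC0
  gS := fun σ => if σ then gS1 else gS0
  lC := fun σ => if σ then lC1 else lC0
  lS := fun σ => if σ then lS1 else lS0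
  F1 := F1
  F2 := F2
  rC := fun σ => if σ then rC1 else rC0
  rS := fun σ => if σ then rS1 else rS0
  rA := fun _ => crA
  rG := fun σ => if σ then rG1 else rG0
  rX := fun σ => if σ then rX1 else rX0
  rY := fun σ => if σ then rY1 else rY0
  wA := fun _ => []
  wG := fun σ => if σ then wG1 else wG0
  wX := fun σ => if σ then wX1 else wX0
  vX := fun σ => if σ then vX1 else vX0
  wY := fun σ => if σ then wY1 else wY0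
  vY := fun σ => if σ then vY1 else vY0
  kC := fun σ => if σ then 3282124 else 9735
  kS := fun σ => if σ then 0 else 0

theorem ok : sq.Ok where
  pDL := by decide
  pDF := by decide
  pkf := by decide
  wC := by decide +kernel
  wS := by decide +kernel
  lenC := by decide +kernel
  lenS := by decide +kernel
  pkC := by decide +kernel
  pkS := by decide +kernel
  core := fun σ => match σ with
    | false => covC0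
    | true => covC1
  sliv := fun σ => match σ with
    | false => covS0
    | true => covS1
  axis := fun σ => match σ with
    | false => ax0
    | true => ax1
  gam := fun σ => match σ with
    | false => covG0
    | true => covG1
  side := fun σ => match σ with
    | false => covX0
    | true => covX1
  curv := fun σ => match σ with
    | false => covY0
    | true => covY1
  tieC := by decide +kernel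
  tieS := by decide +kernel
  K1 := by decide +kernel
  K2 := fun σ => match σ with
    | false => ⟨K2_0, K2_0_ok⟩
    | true => ⟨K2_1, K2_1_ok⟩
  K3 := by decide +kernel
  K4 := by decide +kernel
  K5 := by decide +kernel
  nA := by decide +kernel
  nG := by decide +kernel
  nX := by decide +kernel
  nY := by decide +kernel

theorem isC : sq.IsC (qA 6000 7150 7150) where
  dl := rfl
  rC := fun σ => by cases σ <;> rfl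
  rS := fun σ => by cases σ <;> rfl
  rA := fun σ => by cases σ <;> rfl
  rG := fun σ => by cases σ <;> rfl
  rX := fun σ => by cases σ <;> rfl
  rY := fun σ => by cases σ <;> rfl
  lC := fun σ => by cases σ <;> rfl
  lS := fun σ => by cases σ <;> rfl

theorem kok : kOK sq 17344170 10000000000 = true := by decide +kernel

end Pool.Agent.MCD.A2
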